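import Pool.Agent.R742.FI.Main

set_option autoImplicit false

namespace Pool.Agent.Results.MP_3f8f93_al.ContextFreeFixRational

open Pool.Agent.R742.FI

/-- For every finite alphabet `A` and every endomorphism `φ` of the free inverse monoid `M_A`: if
`Fix φ` is context-free, then it is rational, and even finitely generated. In particular there is
no finite alphabet with an endomorphism whose fixed point submonoid is context-free but not
rational. -/
theorem result (A : Type) [Finite A] (φ : FIM A →* FIM A)
    (h : IsCF (Fix φ : Set (FIM A))) :
    IsRational (Fix φ : Set (FIM A)) ∧ (Fix φ).FG :=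
  ⟨rational_of_fg _ (fg_of_cf φ h), fg_of_cf φ h⟩

end Pool.Agent.Results.MP_3f8f93_al.ContextFreeFixRational
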